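import Pool.Agent.Work.MP_65e34f_helper4.Perf

/-!
# MP_65e34f_al : block BND
-/

namespace Pool.FG.helper4

open Matrix Polynomial

section
variable {K : Type} [Field K]

/-! ### reducible pairs do not generate -/

lemma yx_eq (x y : SL K) : (y : M2 K) * (x : M2 K) =
    -((x : M2 K) * (y : M2 K)) + tr x • (y : M2 K) + tr y • (x : M2 K) +
      (tr (x * y) - tr x * tr y) • (1 : M2 K) := by
  ext i j
  fin_cases i <;> fin_cases j <;>
    simp [tr, Matrix.mul_apply, Fin.sum_univ_two, Matrix.SpecialLinearGroup.coe_mul] <;> ring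

/-- the span of `1, x, y, xy` -/
def V (x y : SL K) : Submodule K (M2 K) :=
  Submodule.span K {1, (x : M2 K), (y : M2 K), (x : M2 K) * (y : M2 K)}

lemma one_V (x y : SL K) : (1 : M2 K) ∈ V x y := Submodule.subset_span (by simp)
lemma x_V (x y : SL K) : (x : M2 K) ∈ V x y := Submodule.subset_span (by simp)
lemma y_V (x y : SL K) : (y : M2 K) ∈ V x y := Submodule.subset_span (by simp)
lemma xy_V (x y : SL K) : (x : M2 K) * (y : M2 K) ∈ V x y := Submodule.subset_span (by simp)

lemma x_mul_V (x y : SL K) {M : M2 K} (hM : M ∈ V x y) : (x : M2 K) * M ∈ V x y := by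
  induction hM using Submodule.span_induction with
  | mem M hM =>
    rcases hM with rfl | rfl | rfl | hM
    · rw [mul_one]; exact x_V x y
    · rw [mul_self_eq]
      exact Submodule.sub_mem _ (Submodule.smul_mem _ _ (x_V x y)) (one_V x y)
    · exact xy_V x y
    · rw [Set.mem_singleton_iff] at hM
      subst hM
      rw [← mul_assoc, mul_self_eq, sub_mul, one_mul, smul_mul_assoc]
      exact Submodule.sub_mem _ (Submodule.smul_mem _ _ (xy_V x y)) (y_V x y)
  | zero => rw [mul_zero]; exact Submodule.zero_mem _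
  | add M N _ _ h1 h2 => rw [mul_add]; exact Submodule.add_mem _ h1 h2
  | smul a M _ h => rw [mul_smul_comm]; exact Submodule.smul_mem _ _ h

lemma yx_V (x y : SL K) : (y : M2 K) * (x : M2 K) ∈ V x y := by
  rw [yx_eq]
  exact Submodule.add_mem _ (Submodule.add_mem _ (Submodule.add_mem _
    (Submodule.neg_mem _ (xy_V x y)) (Submodule.smul_mem _ _ (y_V x y)))
    (Submodule.smul_mem _ _ (x_V x y))) (Submodule.smul_mem _ _ (one_V x y))

lemma y_mul_V (x y : SL K) {M : M2 K} (hM : M ∈ V x y) : (y : M2 K) * M ∈ V x y := by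
  induction hM using Submodule.span_induction with
  | mem M hM =>
    rcases hM with rfl | rfl | rfl | hM
    · rw [mul_one]; exact y_V x y
    · exact yx_V x y
    · rw [mul_self_eq]
      exact Submodule.sub_mem _ (Submodule.smul_mem _ _ (y_V x y)) (one_V x y)
    · rw [Set.mem_singleton_iff] at hM
      subst hM
      rw [← mul_assoc, yx_eq, add_mul, add_mul, add_mul, neg_mul, mul_assoc, mul_self_eq,
        smul_mul_assoc, mul_self_eq, smul_mul_assoc, smul_mul_assoc, one_mul, mul_sub, mul_one,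
        mul_smul_comm]
      refine Submodule.add_mem _ (Submodule.add_mem _ (Submodule.add_mem _
        (Submodule.neg_mem _ (Submodule.sub_mem _ (Submodule.smul_mem _ _ (xy_V x y)) (x_V x y)))
        (Submodule.smul_mem _ _ (Submodule.sub_mem _ (Submodule.smul_mem _ _ (y_V x y))
          (one_V x y)))) (Submodule.smul_mem _ _ (xy_V x y))) (Submodule.smul_mem _ _ (y_V x y))
  | zero => rw [mul_zero]; exact Submodule.zero_mem _
  | add M N _ _ h1 h2 => rw [mul_add]; exact Submodule.add_mem _ h1 h2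
  | smul a M _ h => rw [mul_smul_comm]; exact Submodule.smul_mem _ _ h

lemma closure_V (x y : SL K) {g : SL K} (hg : g ∈ Subgroup.closure ({x, y, -1} : Set (SL K))) :
    (g : M2 K) ∈ V x y := by
  have h : ∀ M ∈ V x y, (g : M2 K) * M ∈ V x y := by
    induction hg using Subgroup.closure_induction with
    | mem g hg =>
      intro M hM
      rcases hg with rfl | rfl | hg
      · exact x_mul_V _ _ hM
      · exact y_mul_V _ _ hM
      · rw [Set.mem_singleton_iff] at hg
        subst hg
        have : ((-1 : SL K) : M2 K) * M = -M := by simp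
        rw [this]
        exact Submodule.neg_mem _ hM
    | one => intro M hM; simpa using hM
    | mul a b _ _ ha hb =>
      intro M hM
      rw [Matrix.SpecialLinearGroup.coe_mul, mul_assoc]
      exact ha _ (hb _ hM)
    | inv a _ ha =>
      intro M hM
      rw [inv_eq, sub_mul, smul_mul_assoc, one_mul]
      exact Submodule.sub_mem _ (Submodule.smul_mem _ _ hM) (ha _ hM)
  simpa using h 1 (one_V x y)

/-- the trace form with `xy - yx` -/
lemma form_V (x y : SL K) (h : kp x y = 2) {M : M2 K} (hM : M ∈ V x y) :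
    (((x : M2 K) * (y : M2 K) - (y : M2 K) * (x : M2 K)) * M).trace = 0 := by
  have hx := det_eq x
  have hy := det_eq y
  induction hM using Submodule.span_induction with
  | mem M hM =>
    rcases hM with rfl | rfl | rfl | hM
    · rw [mul_one, Matrix.trace_sub, Matrix.trace_mul_comm, sub_self]
    · simp only [Matrix.trace_fin_two, Matrix.mul_apply, Fin.sum_univ_two, Matrix.sub_apply]
      ring
    · simp only [Matrix.trace_fin_two, Matrix.mul_apply, Fin.sum_univ_two, Matrix.sub_apply]
      ring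
    · rw [Set.mem_singleton_iff] at hM
      subst hM
      rw [kp, kap] at h
      simp only [tr, Matrix.SpecialLinearGroup.coe_mul, Matrix.mul_apply, Fin.sum_univ_two] at h
      simp only [Matrix.trace_fin_two, Matrix.mul_apply, Fin.sum_univ_two, Matrix.sub_apply]
      linear_combination h + (x.1 0 0 + x.1 1 1) ^ 2 * hy + (y.1 0 0 + y.1 1 1) ^ 2 * hx -
        4 * ((x.1 0 0 * x.1 1 1 - x.1 0 1 * x.1 1 0) * hy + hx)
  | zero => rw [mul_zero, Matrix.trace_zero]
  | add M N _ _ h1 h2 => rw [mul_add, Matrix.trace_add, h1, h2, add_zero]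
  | smul a M _ h => rw [mul_smul_comm, Matrix.trace_smul, h, smul_zero]

lemma closure_ne_top_of_kp (h4 : 4 ≤ Nat.card K) (x y : SL K) (h : kp x y = 2) :
    Subgroup.closure ({x, y, -1} : Set (SL K)) ≠ ⊤ := by
  by_cases hN : (x : M2 K) * (y : M2 K) - (y : M2 K) * (x : M2 K) = 0
  · have hxy : x * y = y * x := by
      apply Subtype.ext
      simp only [Matrix.SpecialLinearGroup.coe_mul]
      exact sub_eq_zero.mp hN
    apply closure_ne_top_of_comm' h4
    rintro s (rfl | rfl | hs) t (rfl | rfl | ht)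
    · rfl
    · exact hxy
    · rw [Set.mem_singleton_iff] at ht; subst ht; exact (neg_one_comm _).symm
    · exact hxy.symm
    · rfl
    · rw [Set.mem_singleton_iff] at ht; subst ht; exact (neg_one_comm _).symm
    · rw [Set.mem_singleton_iff] at hs; subst hs; exact neg_one_comm _
    · rw [Set.mem_singleton_iff] at hs; subst hs; exact neg_one_comm _
    · rw [Set.mem_singleton_iff] at hs ht; subst hs; subst ht; rfl
  · intro htop
    apply hN
    set N : M2 K := (x : M2 K) * (y : M2 K) - (y : M2 K) * (x : M2 K) with hNdef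
    have hf : ∀ g : SL K, N 0 0 * g.1 0 0 + N 0 1 * g.1 1 0 + N 1 0 * g.1 0 1 + N 1 1 * g.1 1 1 = 0 := by
      intro g
      have h1 : (g : M2 K) ∈ V x y := closure_V x y (by rw [htop]; trivial)
      have h2 := form_V x y h h1
      rw [← hNdef] at h2
      simp only [Matrix.trace_fin_two, Matrix.mul_apply, Fin.sum_univ_two] at h2
      linear_combination h2
    have e1 := hf 1
    have e2 := hf ⟨!![1, 1; 0, 1], by simp [Matrix.det_fin_two]⟩
    have e3 := hf ⟨!![1, 0; 1, 1], by simp [Matrix.det_fin_two]⟩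
    have e4 := hf ⟨!![2, 1; 1, 1], by simp [Matrix.det_fin_two]; norm_num⟩
    simp at e1 e2 e3 e4
    have f10 : N 1 0 = 0 := by linear_combination e2 - e1
    have f01 : N 0 1 = 0 := by linear_combination e3 - e1
    have f00 : N 0 0 = 0 := by linear_combination e4 - e1 - f10 - f01
    have f11 : N 1 1 = 0 := by linear_combination e1 - f00
    ext i j
    fin_cases i <;> fin_cases j
    · exact f00
    · exact f01
    · exact f10
    · exact f11

/-! ### traces of elements of bounded order -/

lemma tr_pow_add_two (x : SL K) (n : ℕ) :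
    tr (x ^ (n + 2)) = tr x * tr (x ^ (n + 1)) - tr (x ^ n) := by
  have h := tr_inv_mul x (x ^ (n + 1))
  have e1 : x⁻¹ * x ^ (n + 1) = x ^ n := by rw [pow_succ']; group
  have e2 : x * x ^ (n + 1) = x ^ (n + 2) := by rw [← pow_succ']
  rw [e1, e2] at h
  linear_combination h

lemma tr_pow_eq (x : SL K) : ∀ n : ℕ, tr (x ^ n) = (dickson 1 (1 : K) n).eval (tr x)
  | 0 => by
    rw [pow_zero, tr_one, dickson_zero]
    simp only [eval_sub, eval_ofNat, Nat.cast_one, eval_one]
    norm_num
  | 1 => by rw [pow_one, dickson_one, eval_X]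
  | (n + 2) => by
    rw [tr_pow_add_two, dickson_add_two, tr_pow_eq x n, tr_pow_eq x (n + 1)]
    simp only [eval_sub, eval_mul, eval_X, eval_C]
    ring

lemma tr_pow_char (p : ℕ) [Fact p.Prime] [CharP K p] (x : SL K) (k : ℕ) :
    tr (x ^ p ^ k) = tr x ^ p ^ k := by
  induction k with
  | zero => simp
  | succ k ih =>
    rw [pow_succ, pow_mul, tr_pow_eq, dickson_one_one_charP, eval_pow, eval_X, ih, ← pow_mul]

lemma tr_pow_period (p : ℕ) [Fact p.Prime] [CharP K p] (x : SL K) (n F : ℕ) (hn : 0 < n)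
    (hx : x ^ n = 1) (hF : ∀ r, 0 < r → r ≤ n → Nat.totient r ∣ F) :
    tr x ^ p ^ F = tr x := by
  have hp : p.Prime := Fact.out
  obtain ⟨a, n', hn', hnn⟩ := Nat.exists_eq_pow_mul_and_not_dvd hn.ne' p hp.ne_one
  have hn'0 : 0 < n' := by
    rcases Nat.eq_zero_or_pos n' with h | h
    · exact absurd (h ▸ dvd_zero p) hn'
    · exact h
  have hle : n' ≤ n := by
    rw [hnn]
    exact Nat.le_mul_of_pos_left _ (pow_pos hp.pos a)
  obtain ⟨c, hc⟩ := hF n' hn'0 hle
  have hcop : Nat.Coprime p n' := (Nat.Prime.coprime_iff_not_dvd hp).mpr hn'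
  have hmod : p ^ F ≡ 1 [MOD n'] := by
    rw [hc, pow_mul]
    have := (Nat.ModEq.pow_totient hcop).pow c
    simpa using this
  set y : SL K := x ^ p ^ a with hy
  have hyn : y ^ n' = 1 := by
    rw [hy, ← pow_mul, ← hnn, hx]
  have hyp : y ^ p ^ F = y := by
    have h1 : 1 ≤ p ^ F := Nat.one_le_pow _ _ hp.pos
    obtain ⟨d, hd⟩ := (Nat.modEq_iff_dvd' h1).mp hmod.symm
    have h2 : p ^ F = n' * d + 1 := by omega
    rw [h2, pow_add, pow_mul, hyn, one_pow, one_mul, pow_one]
  have h3 : tr y ^ p ^ F = tr y := by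
    rw [← tr_pow_char, hyp]
  rw [hy, tr_pow_char] at h3
  have h4 : (tr x ^ p ^ F - tr x) ^ p ^ a = 0 := by
    rw [sub_pow_char_pow, ← pow_mul, mul_comm, pow_mul, h3, sub_self]
  exact sub_eq_zero.mp (pow_eq_zero_iff (pow_ne_zero _ hp.ne_zero) |>.mp h4)

lemma card_le_of_forall_pow [Finite K] (P : ℕ) (hP : 1 < P) (h : ∀ x : K, x ^ P = x) :
    Nat.card K ≤ P := by
  classical
  have := Fintype.ofFinite K
  rw [Nat.card_eq_fintype_card]
  have hne : (X ^ P - X : K[X]) ≠ 0 := FiniteField.X_pow_card_sub_X_ne_zero K hP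
  have hsub : (Finset.univ : Finset K) ⊆ (X ^ P - X : K[X]).roots.toFinset := by
    intro x _
    rw [Multiset.mem_toFinset, mem_roots hne]
    simp [IsRoot, h x]
  calc Fintype.card K = (Finset.univ : Finset K).card := rfl
    _ ≤ (X ^ P - X : K[X]).roots.toFinset.card := Finset.card_le_card hsub
    _ ≤ Multiset.card (X ^ P - X : K[X]).roots := Multiset.toFinset_card_le _
    _ ≤ (X ^ P - X : K[X]).natDegree := card_roots' _
    _ = P := FiniteField.X_pow_card_sub_X_natDegree_eq K hP

end

theorem stmt_BND (hSIG : Stmt_SIG) : Stmt_BND := by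
  intro m1 m2 m3 hm1 hm2 hm3
  set M : ℕ := 3 + m1 + m2 + m3 with hM
  set F : ℕ := (2 * M).factorial with hFdef
  refine ⟨M ^ F + 4, ?_⟩
  intro K _ _ hN hcop t ht htop
  obtain ⟨xs, w⟩ := t
  have h4 : 4 ≤ Nat.card K := by
    have := Nat.zero_le (M ^ F)
    omega
  have hp : (ringChar K).Prime := CharP.char_is_prime K (ringChar K)
  have hpM : ringChar K ≤ M := by
    rw [Nat.Prime.coprime_iff_not_dvd hp, not_not] at hcop
    rcases (Nat.Prime.dvd_mul hp).mp hcop with h | h
    · rcases (Nat.Prime.dvd_mul hp).mp h with h | h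
      · rcases (Nat.Prime.dvd_mul hp).mp h with h | h
        · have h6 : ringChar K ∣ 2 * 3 := by simpa using h
          rcases (Nat.Prime.dvd_mul hp).mp h6 with h | h
          · have := Nat.le_of_dvd (by norm_num) h
            omega
          · have := Nat.le_of_dvd (by norm_num) h
            omega
        · have := Nat.le_of_dvd hm1 h
          omega
      · have := Nat.le_of_dvd hm2 h
        omega
    · have := Nat.le_of_dvd hm3 h
      omega
  obtain ⟨x1, ys, rfl, -, hx1, hys⟩ := mem_Xs_cons.mp ht.1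
  obtain ⟨x2, zs, rfl, -, hx2, hzs⟩ := mem_Xs_cons.mp hys
  obtain ⟨x3, us, rfl, -, hx3, hus⟩ := mem_Xs_cons.mp hzs
  rw [Xs_nil, Set.mem_singleton_iff] at hus
  subst hus
  have hrel : Sc ([x1, x2, x3] : List (SL K)).prod := ht.2.2
  simp only [List.prod_cons, List.prod_nil, mul_one] at hrel
  -- `x1 x2 = ± x3⁻¹`
  obtain ⟨ε, hε, hx12⟩ : ∃ ε : SL K, Sc ε ∧ x1 * x2 = ε * x3⁻¹ :=
    ⟨x1 * (x2 * x3), hrel, by group⟩
  have hx12m : Sc ((x1 * x2) ^ m3) := by
    rw [hx12]
    have hcomm : Commute ε x3⁻¹ := hε.comm _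
    rw [hcomm.mul_pow, inv_pow]
    exact (hε.pow m3).mul hx3.inv
  -- the closure
  have hcl : Subgroup.closure ({x1, x2, -1} : Set (SL K)) = ⊤ := by
    rw [eq_top_iff, ← htop, gn, Subgroup.closure_le]
    have k1 : x1 ∈ Subgroup.closure ({x1, x2, -1} : Set (SL K)) := Subgroup.subset_closure (by simp)
    have k2 : x2 ∈ Subgroup.closure ({x1, x2, -1} : Set (SL K)) := Subgroup.subset_closure (by simp)
    have k0 : (-1 : SL K) ∈ Subgroup.closure ({x1, x2, -1} : Set (SL K)) :=
      Subgroup.subset_closure (by simp)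
    have kε : ε ∈ Subgroup.closure ({x1, x2, -1} : Set (SL K)) := by
      rcases hε with rfl | rfl
      · exact Subgroup.one_mem _
      · exact k0
    have k3 : x3 ∈ Subgroup.closure ({x1, x2, -1} : Set (SL K)) := by
      have : x3 = (x1 * x2)⁻¹ * ε := by rw [hx12]; group
      rw [this]
      exact Subgroup.mul_mem _ (Subgroup.inv_mem _ (Subgroup.mul_mem _ k1 k2)) kε
    rintro x ((hx | ⟨i, rfl⟩) | hx)
    · have hx' : x ∈ [x1, x2, x3] := hx
      simp only [List.mem_cons, List.not_mem_nil, or_false] at hx'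
      rcases hx' with rfl | rfl | rfl
      · exact k1
      · exact k2
      · exact k3
    · exact Fin.elim0 (show Fin 0 from i)
    · rw [Set.mem_singleton_iff] at hx
      subst hx
      exact k0
  have hkp : kp x1 x2 ≠ 2 := fun h => closure_ne_top_of_kp h4 x1 x2 h hcl
  -- the subfield
  have : Fact (ringChar K).Prime := ⟨hp⟩
  have : CharP K (ringChar K) := ringChar.charP K
  let L : Subfield K := (iterateFrobenius K (ringChar K) F).eqLocusField (RingHom.id K)
  have hmem : ∀ x : K, x ∈ L ↔ x ^ ringChar K ^ F = x := by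
    intro x
    rw [RingHom.mem_eqLocusField, iterateFrobenius_def, RingHom.id_apply]
  have hF0 : 0 < F := Nat.factorial_pos _
  have hL : L ≠ ⊤ := by
    intro hL
    have h1 := card_le_of_forall_pow (K := K) (ringChar K ^ F)
      (Nat.one_lt_pow hF0.ne' hp.one_lt) (fun x => (hmem x).mp (by rw [hL]; trivial))
    have h2 : ringChar K ^ F ≤ M ^ F := Nat.pow_le_pow_left hpM F
    omega
  have htrL : ∀ (x : SL K) (m : ℕ), 1 ≤ m → m ≤ M → Sc (x ^ m) → tr x ∈ L := by
    intro x m h1 h2 h3
    rw [hmem]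
    have hx : x ^ (2 * m) = 1 := by
      rw [mul_comm, pow_mul]
      rcases h3 with h | h <;> rw [h] <;> simp
    apply tr_pow_period (ringChar K) x (2 * m) F (by omega) hx
    intro r hr hr2
    exact Nat.dvd_factorial (Nat.totient_pos.mpr hr) ((Nat.totient_le r).trans (by omega))
  have a1 := htrL x1 m1 hm1 (by omega) hx1
  have a2 := htrL x2 m2 hm2 (by omega) hx2
  have a3 := htrL (x1 * x2) m3 hm3 (by omega) hx12m
  exact hSIG K x1 x2 hkp L hL (pow_mem a1 2) (pow_mem a2 2) (pow_mem a3 2)
    (mul_mem (mul_mem a1 a2) a3) hcl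

end Pool.FG.helper4
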