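import Pool.Agent.Work.MP_65e34f_helper4.Perf

/-!
# MP_65e34f_al : block BTV
-/

namespace Pool.FG.helper4

open Matrix

section
variable {K : Type} [Field K]

/-- adding `-1` to a set of commuting elements -/
lemma closure_ne_top_insert (h4 : 4 ≤ Nat.card K) (S : Set (SL K))
    (h : ∀ s ∈ S, ∀ t ∈ S, s * t = t * s) : Subgroup.closure (S ∪ {-1}) ≠ ⊤ := by
  apply closure_ne_top_of_comm' h4
  rintro s (hs | hs) t (ht | ht)
  · exact h s hs t ht
  · rw [Set.mem_singleton_iff] at ht; subst ht; exact (neg_one_comm s).symm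
  · rw [Set.mem_singleton_iff] at hs; subst hs; exact neg_one_comm t
  · rw [Set.mem_singleton_iff] at hs ht; subst hs; subst ht; rfl

lemma comm_of_sc {x y z : SL K} (h : Sc (x * y)) (hz : y * z = z * y) : x * z = z * x := by
  have hx : x = (x * y) * y⁻¹ := by group
  have hy : y⁻¹ * z = z * y⁻¹ := by
    calc y⁻¹ * z = y⁻¹ * (z * y) * y⁻¹ := by group
      _ = y⁻¹ * (y * z) * y⁻¹ := by rw [hz]
      _ = z * y⁻¹ := by group
  rw [hx, mul_assoc, hy, ← mul_assoc, h.comm z, mul_assoc]

/-- the pair case `a² b² = ±1` -/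
lemma closure_ne_top_sq2 (h4 : 4 ≤ Nat.card K) (a b : SL K) (h : Sc (a ^ 2 * b ^ 2)) :
    Subgroup.closure ({a, b} ∪ {-1} : Set (SL K)) ≠ ⊤ := by
  intro htop
  -- `c = a b`, `a c a⁻¹ = ± c⁻¹`
  have hconj : ∀ g : SL K, (∃ ε : SL K, Sc ε ∧ g * (a * b) * g⁻¹ = ε * (a * b)⁻¹) ∨
      (∃ ε : SL K, Sc ε ∧ g * (a * b) * g⁻¹ = ε * (a * b)) →
      g * (a * b) * g⁻¹ ∈ Subgroup.closure ({a * b, -1} : Set (SL K)) := by
    have hε : ∀ ε : SL K, Sc ε → ε ∈ Subgroup.closure ({a * b, -1} : Set (SL K)) := by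
      rintro ε (rfl | rfl)
      · exact Subgroup.one_mem _
      · exact Subgroup.subset_closure (by simp)
    have hc : a * b ∈ Subgroup.closure ({a * b, -1} : Set (SL K)) :=
      Subgroup.subset_closure (by simp)
    rintro g (⟨ε, h1, h2⟩ | ⟨ε, h1, h2⟩)
    · rw [h2]; exact Subgroup.mul_mem _ (hε ε h1) (Subgroup.inv_mem _ hc)
    · rw [h2]; exact Subgroup.mul_mem _ (hε ε h1) hc
  -- the set of `g` with `g c g⁻¹ = ± c^{±1}` is everything
  let P : Subgroup (SL K) :=
    { carrier := {g | (∃ ε : SL K, Sc ε ∧ g * (a * b) * g⁻¹ = ε * (a * b)⁻¹) ∨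
        (∃ ε : SL K, Sc ε ∧ g * (a * b) * g⁻¹ = ε * (a * b))}
      one_mem' := Or.inr ⟨1, Sc_one, by simp⟩
      mul_mem' := by
        have key : ∀ g x : SL K, ∀ ε : SL K, Sc ε → g * (ε * x) * g⁻¹ = ε * (g * x * g⁻¹) := by
          intro g x ε hε
          rw [← mul_assoc, ← hε.comm g]
          simp only [mul_assoc]
        have keyinv : ∀ g x y ε : SL K, Sc ε → g * x * g⁻¹ = ε * y → g * x⁻¹ * g⁻¹ = ε⁻¹ * y⁻¹ := by
          intro g x y ε hε h
          have : g * x⁻¹ * g⁻¹ = (g * x * g⁻¹)⁻¹ := by group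
          rw [this, h, _root_.mul_inv_rev, hε.inv.comm]
        rintro x y (⟨ε, h1, h2⟩ | ⟨ε, h1, h2⟩) (⟨δ, h3, h4⟩ | ⟨δ, h3, h4⟩)
        · right
          refine ⟨δ * ε⁻¹, h3.mul h1.inv, ?_⟩
          have e : x * y * (a * b) * (x * y)⁻¹ = x * (y * (a * b) * y⁻¹) * x⁻¹ := by group
          rw [e, h4, key _ _ _ h3, keyinv _ _ _ _ h1 h2, inv_inv, mul_assoc]
        · left
          refine ⟨δ * ε, h3.mul h1, ?_⟩
          have e : x * y * (a * b) * (x * y)⁻¹ = x * (y * (a * b) * y⁻¹) * x⁻¹ := by group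
          rw [e, h4, key _ _ _ h3, h2, mul_assoc]
        · left
          refine ⟨δ * ε⁻¹, h3.mul h1.inv, ?_⟩
          have e : x * y * (a * b) * (x * y)⁻¹ = x * (y * (a * b) * y⁻¹) * x⁻¹ := by group
          rw [e, h4, key _ _ _ h3, keyinv _ _ _ _ h1 h2, mul_assoc]
        · right
          refine ⟨δ * ε, h3.mul h1, ?_⟩
          have e : x * y * (a * b) * (x * y)⁻¹ = x * (y * (a * b) * y⁻¹) * x⁻¹ := by group
          rw [e, h4, key _ _ _ h3, h2, mul_assoc]
      inv_mem' := by
        rintro x (⟨ε, h1, h2⟩ | ⟨ε, h1, h2⟩)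
        · left
          refine ⟨ε, h1, ?_⟩
          have e1 : (a * b)⁻¹ = ε⁻¹ * (x * (a * b) * x⁻¹) := by rw [h2]; group
          have e2 : ε * (x⁻¹ * (a * b)⁻¹ * x⁻¹⁻¹) = x⁻¹ * (ε * (a * b)⁻¹) * x⁻¹⁻¹ := by
            rw [← mul_assoc x⁻¹ ε, ← h1.comm x⁻¹]
            simp only [mul_assoc]
          -- from `x c x⁻¹ = ε c⁻¹` we get `c = x⁻¹ ε c⁻¹ x`, i.e. `x⁻¹ c⁻¹ x = ε⁻¹ c`
          have e3 : a * b = ε * (x⁻¹ * (a * b)⁻¹ * x⁻¹⁻¹) := by
            rw [e2, ← h2]; group
          have e4 : (x⁻¹ * (a * b)⁻¹ * x⁻¹⁻¹) = ε⁻¹ * (a * b) := by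
            rw [eq_inv_mul_iff_mul_eq]; exact e3.symm
          have e5 : x⁻¹ * (a * b) * x⁻¹⁻¹ = (x⁻¹ * (a * b)⁻¹ * x⁻¹⁻¹)⁻¹ := by group
          rw [e5, e4, _root_.mul_inv_rev, inv_inv, h1.comm]
        · right
          refine ⟨ε⁻¹, h1.inv, ?_⟩
          have e2 : ε * (x⁻¹ * (a * b) * x⁻¹⁻¹) = x⁻¹ * (ε * (a * b)) * x⁻¹⁻¹ := by
            rw [← mul_assoc x⁻¹ ε, ← h1.comm x⁻¹]
            simp only [mul_assoc]
          have e3 : a * b = ε * (x⁻¹ * (a * b) * x⁻¹⁻¹) := by
            rw [e2, ← h2]; group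
          rw [eq_inv_mul_iff_mul_eq]; exact e3.symm }
  have ha : a ∈ P := by
    left
    refine ⟨a ^ 2 * b ^ 2, h, ?_⟩
    have h1 : a ^ 2 * b ^ 2 * (a * b)⁻¹ = a ^ 2 * b * a⁻¹ := by
      have : a ^ 2 * b ^ 2 * (a * b)⁻¹ = a ^ 2 * b ^ 2 * b⁻¹ * a⁻¹ := by
        rw [_root_.mul_inv_rev, ← mul_assoc]
      rw [this]
      have h2 : a ^ 2 * b ^ 2 * b⁻¹ = a ^ 2 * b := by
        rw [pow_two b]; group
      rw [h2]
    rw [h1]
    rw [pow_two]; group
  have hb : b ∈ P := by
    have hab : a * b ∈ P := by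
      right
      exact ⟨1, Sc_one, by group⟩
    have : b = a⁻¹ * (a * b) := by group
    rw [this]
    exact P.mul_mem (P.inv_mem ha) hab
  have hP : P = ⊤ := by
    rw [eq_top_iff, ← htop, Subgroup.closure_le]
    rintro x (hx | hx)
    · rcases hx with rfl | hx
      · exact ha
      · rw [Set.mem_singleton_iff] at hx; subst hx; exact hb
    · rw [Set.mem_singleton_iff] at hx
      subst hx
      right
      exact ⟨1, Sc_one, by simp⟩
  have hPall : ∀ g : SL K, g ∈ P := fun g => by rw [hP]; trivial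
  have hN : (Subgroup.closure ({a * b, -1} : Set (SL K))).Normal := by
    constructor
    intro n hn g
    induction hn using Subgroup.closure_induction with
    | mem x hx =>
      rcases hx with rfl | hx
      · exact hconj g (hPall g)
      · rw [Set.mem_singleton_iff] at hx
        subst hx
        have : g * -1 * g⁻¹ = -1 := by simp
        rw [this]
        exact Subgroup.subset_closure (by simp)
    | one => rw [mul_one, mul_inv_cancel]; exact Subgroup.one_mem _
    | mul x y _ _ hx hy =>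
      have : g * (x * y) * g⁻¹ = (g * x * g⁻¹) * (g * y * g⁻¹) := by group
      rw [this]; exact Subgroup.mul_mem _ hx hy
    | inv x _ hx =>
      have : g * x⁻¹ * g⁻¹ = (g * x * g⁻¹)⁻¹ := by group
      rw [this]; exact Subgroup.inv_mem _ hx
  have hcm : a * b ∈ Subgroup.closure ({a * b, -1} : Set (SL K)) :=
    Subgroup.subset_closure (by simp)
  -- all commutators of `a`, `b`, `-1` are in `N`
  have hab : a * b * a⁻¹ * b⁻¹ ∈ Subgroup.closure ({a * b, -1} : Set (SL K)) := by
    have : a * b * a⁻¹ * b⁻¹ = (a * b) * (b * (a * b) * b⁻¹)⁻¹ := by group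
    rw [this]
    exact Subgroup.mul_mem _ hcm (Subgroup.inv_mem _ (hN.conj_mem _ hcm b))
  have hba : b * a * b⁻¹ * a⁻¹ ∈ Subgroup.closure ({a * b, -1} : Set (SL K)) := by
    have : b * a * b⁻¹ * a⁻¹ = (a * b * a⁻¹ * b⁻¹)⁻¹ := by group
    rw [this]
    exact Subgroup.inv_mem _ hab
  refine closure_ne_top_of_metab h4 _ _ hN ?_ ?_ htop
  · have h1 : ∀ x : SL K, -1 * x * (-1)⁻¹ * x⁻¹ ∈ Subgroup.closure ({a * b, -1} : Set (SL K)) := by
      intro x
      have : -1 * x * (-1)⁻¹ * x⁻¹ = 1 := by simp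
      rw [this]; exact Subgroup.one_mem _
    have h2 : ∀ x : SL K, x * -1 * x⁻¹ * (-1)⁻¹ ∈ Subgroup.closure ({a * b, -1} : Set (SL K)) := by
      intro x
      have : x * -1 * x⁻¹ * (-1)⁻¹ = 1 := by simp
      rw [this]; exact Subgroup.one_mem _
    have h3 : ∀ x : SL K, x * x * x⁻¹ * x⁻¹ ∈ Subgroup.closure ({a * b, -1} : Set (SL K)) := by
      intro x
      have : x * x * x⁻¹ * x⁻¹ = 1 := by group
      rw [this]; exact Subgroup.one_mem _
    rintro s (hs | hs) t (ht | ht)
    · rcases hs with rfl | hs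
      · rcases ht with rfl | ht
        · exact h3 _
        · rw [Set.mem_singleton_iff] at ht; subst ht; exact hab
      · rw [Set.mem_singleton_iff] at hs; subst hs
        rcases ht with rfl | ht
        · exact hba
        · rw [Set.mem_singleton_iff] at ht; subst ht; exact h3 _
    · rw [Set.mem_singleton_iff] at ht; subst ht; exact h2 _
    · rw [Set.mem_singleton_iff] at hs; subst hs; exact h1 _
    · rw [Set.mem_singleton_iff] at hs; subst hs; exact h1 _
  · rintro s (rfl | hs) t (rfl | ht)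
    · left; group
    · rw [Set.mem_singleton_iff] at ht; subst ht
      left; simp
    · rw [Set.mem_singleton_iff] at hs; subst hs
      left; simp
    · rw [Set.mem_singleton_iff] at hs ht; subst hs; subst ht
      left; simp

end

theorem stmt_BTV : Stmt_BTV := by
  intro W ds K _ _ h4 hW t ht
  obtain ⟨xs, w⟩ := t
  have hlen := length_of_mem_Xs ht.1
  simp only at hlen
  cases W with
  | free r =>
    simp only at hW
    apply closure_ne_top_insert h4
    rintro s (hs | ⟨i, rfl⟩) t (ht' | ⟨j, rfl⟩)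
    · have h1 : xs.length ≤ 1 := by omega
      match xs, h1, hs, ht' with
      | [x], _, hs, ht' =>
        simp at hs ht'
        rw [hs, ht']
    · exfalso
      have h1 : 0 < xs.length := List.length_pos_of_mem hs
      have h2 : r = 0 := by omega
      subst h2
      exact Fin.elim0 j
    · exfalso
      have h1 : 0 < xs.length := List.length_pos_of_mem ht'
      have h2 : r = 0 := by omega
      subst h2
      exact Fin.elim0 i
    · have h2 : r ≤ 1 := by omega
      have : i = j := by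
        have hi := (show Fin r from i).isLt
        have hj := (show Fin r from j).isLt
        exact Fin.ext (by
          show (show Fin r from i).val = (show Fin r from j).val
          omega)
      rw [this]
  | zero =>
    simp only at hW
    apply closure_ne_top_insert h4
    have hrel : Sc xs.prod := ht.2.2
    have h1 : xs.length ≤ 2 := by omega
    rintro s (hs | ⟨i, rfl⟩) t (ht' | ⟨j, rfl⟩)
    · match xs, h1, hs, ht', hrel with
      | [x], _, hs, ht', _ =>
        simp at hs ht'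
        rw [hs, ht']
      | [x, y], _, hs, ht', hrel =>
        simp only [List.prod_cons, List.prod_nil, mul_one] at hrel
        have hc : x * y = y * x := comm_of_sc hrel rfl
        simp at hs ht'
        rcases hs with rfl | rfl <;> rcases ht' with rfl | rfl
        · rfl
        · exact hc
        · exact hc.symm
        · rfl
    · exact Fin.elim0 (show Fin 0 from j)
    · exact Fin.elim0 (show Fin 0 from i)
    · exact Fin.elim0 (show Fin 0 from i)
  | comm =>
    simp only at hW
    have hxs : xs = [] := List.eq_nil_of_length_eq_zero (by omega)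
    subst hxs
    have hrel : Sc (([] : List (SL K)).prod * cm (w (0 : Fin 2)) (w (1 : Fin 2))) := ht.2.2
    rw [List.prod_nil, one_mul] at hrel
    have hrel' : Sc (w (1 : Fin 2) * w (0 : Fin 2) * (w (1 : Fin 2))⁻¹ * (w (0 : Fin 2))⁻¹) := by
      have := hrel.inv
      have e : (cm (w (0 : Fin 2)) (w (1 : Fin 2)))⁻¹ =
        w (1 : Fin 2) * w (0 : Fin 2) * (w (1 : Fin 2))⁻¹ * (w (0 : Fin 2))⁻¹ := by
        unfold cm; group
      rwa [e] at this
    have hw : ∀ j : Fin Wd.comm.n, w j = w (0 : Fin 2) ∨ w j = w (1 : Fin 2) := by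
      intro j
      change Fin 2 at j
      fin_cases j
      · exact Or.inl rfl
      · exact Or.inr rfl
    apply closure_ne_top_of_comm h4
    have h1 : ∀ x : SL K, Sc (-1 * x * (-1)⁻¹ * x⁻¹) := by
      intro x; left; simp
    have h2 : ∀ x : SL K, Sc (x * -1 * x⁻¹ * (-1)⁻¹) := by
      intro x; left; simp
    have h3 : ∀ x : SL K, Sc (x * x * x⁻¹ * x⁻¹) := by
      intro x; left; group
    rintro s ((hs | ⟨i, rfl⟩) | hs) t ((ht' | ⟨j, rfl⟩) | ht')
    · simp at hs
    · simp at hs
    · simp at hs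
    · simp at ht'
    · rcases hw i with hi | hi <;> rcases hw j with hj | hj
      · show Sc (w i * w j * (w i)⁻¹ * (w j)⁻¹)
        rw [hi, hj]; exact h3 _
      · show Sc (w i * w j * (w i)⁻¹ * (w j)⁻¹)
        rw [hi, hj]; exact hrel
      · show Sc (w i * w j * (w i)⁻¹ * (w j)⁻¹)
        rw [hi, hj]; exact hrel'
      · show Sc (w i * w j * (w i)⁻¹ * (w j)⁻¹)
        rw [hi, hj]; exact h3 _
    · rw [Set.mem_singleton_iff] at ht'; subst ht'; exact h2 _
    · simp at ht'
    · rw [Set.mem_singleton_iff] at hs; subst hs; exact h1 _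
    · rw [Set.mem_singleton_iff] at hs; subst hs; exact h1 _
  | sq =>
    simp only at hW
    have hw : ∀ j : Fin Wd.sq.n, w j = w (0 : Fin 1) := by
      intro j
      change Fin 1 at j
      fin_cases j
      rfl
    have hrel : Sc (xs.prod * (w (0 : Fin 1)) ^ 2) := ht.2.2
    apply closure_ne_top_insert h4
    have h1 : xs.length ≤ 1 := by omega
    have hx : ∀ x ∈ xs, x * w (0 : Fin 1) = w (0 : Fin 1) * x := by
      intro x hx
      match xs, h1, hx, hrel with
      | [y], _, hx, hrel =>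
        simp at hx
        subst hx
        rw [List.prod_cons, List.prod_nil, mul_one] at hrel
        apply comm_of_sc hrel
        rw [pow_two, mul_assoc]
    rintro s (hs | ⟨i, rfl⟩) t (ht' | ⟨j, rfl⟩)
    · match xs, h1, hs, ht' with
      | [x], _, hs, ht' =>
        simp at hs ht'
        rw [hs, ht']
    · show s * w j = w j * s
      rw [hw j]; exact hx s hs
    · show w i * t = t * w i
      rw [hw i]; exact (hx t ht').symm
    · show w i * w j = w j * w i
      rw [hw i, hw j]
  | sq2 =>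
    simp only at hW
    have hxs : xs = [] := List.eq_nil_of_length_eq_zero (by omega)
    subst hxs
    have hrel : Sc (([] : List (SL K)).prod * ((w (0 : Fin 2)) ^ 2 * (w (1 : Fin 2)) ^ 2)) := ht.2.2
    rw [List.prod_nil, one_mul] at hrel
    have hw : ∀ j : Fin Wd.sq2.n, w j = w (0 : Fin 2) ∨ w j = w (1 : Fin 2) := by
      intro j
      change Fin 2 at j
      fin_cases j
      · exact Or.inl rfl
      · exact Or.inr rfl
    intro htop
    apply closure_ne_top_sq2 h4 _ _ hrel
    rw [eq_top_iff, ← htop, gn]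
    apply Subgroup.closure_mono
    rintro x ((hx | ⟨i, rfl⟩) | hx)
    · simp at hx
    · left
      rcases hw i with hi | hi
      · left; exact hi
      · right; exact hi
    · right; exact hx

end Pool.FG.helper4
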