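import Pool.Agent.Work.MP_65e34f.Basic

/-!
# MP_65e34f_al : block D5

From fixed points and fixed pairs over the algebraic closure to subgroups over `K`.
-/

namespace Pool.FG.helper4

open Matrix Polynomial
open scoped LinearAlgebra.Projectivization

section
variable {K : Type} [Field K]

/-- entries over the closure -/
noncomputable def up (M : M2 K) : M2 (AlgebraicClosure K) :=
  M.map (algebraMap K (AlgebraicClosure K))

lemma up_apply (M : M2 K) (i j : Fin 2) :
    up M i j = algebraMap K (AlgebraicClosure K) (M i j) := rfl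

lemma up_mul (M N : M2 K) : up (M * N) = up M * up N := by
  simp [up, Matrix.map_mul]

lemma up_inj {M N : M2 K} (h : up M = up N) : M = N := by
  ext i j
  have := congrFun (congrFun h i) j
  exact (algebraMap K (AlgebraicClosure K)).injective this

lemma smul_mk_iff (h : SL K) (v w : Fin 2 → AlgebraicClosure K) (hv : v ≠ 0) (hw : w ≠ 0) :
    h • (Projectivization.mk _ v hv : PF K) = Projectivization.mk _ w hw ↔
      ∃ c : AlgebraicClosure K, (up (h : M2 K)).mulVec v = c • w := by
  have h1 : h • (Projectivization.mk _ v hv : PF K) =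
      (Matrix.SpecialLinearGroup.map (n := Fin 2) (algebraMap K (AlgebraicClosure K)) h) •
        (Projectivization.mk _ v hv : PF K) := rfl
  rw [h1, Projectivization.smul_mk, Projectivization.mk_eq_mk_iff']
  constructor
  · rintro ⟨c, hc⟩
    refine ⟨c, ?_⟩
    rw [hc]
    rfl
  · rintro ⟨c, hc⟩
    refine ⟨c, ?_⟩
    rw [← hc]
    rfl

lemma mulVec_eq {M : M2 K} {v w : Fin 2 → K} :
    M.mulVec v = w ↔ M 0 0 * v 0 + M 0 1 * v 1 = w 0 ∧ M 1 0 * v 0 + M 1 1 * v 1 = w 1 := by
  constructor
  · rintro rfl
    simp [Matrix.mulVec, dotProduct, Fin.sum_univ_two]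
  · rintro ⟨h1, h2⟩
    ext i
    fin_cases i
    · simpa [Matrix.mulVec, dotProduct, Fin.sum_univ_two] using h1
    · simpa [Matrix.mulVec, dotProduct, Fin.sum_univ_two] using h2

/-- two matrices agreeing on two independent vectors are equal -/
lemma eq_of_mulVec {A B : M2 K} {u w : Fin 2 → K} (hd : u 0 * w 1 - u 1 * w 0 ≠ 0)
    (h1 : A.mulVec u = B.mulVec u) (h2 : A.mulVec w = B.mulVec w) : A = B := by
  have e1 := (mulVec_eq (M := A) (v := u) (w := B.mulVec u)).mp h1
  have e2 := (mulVec_eq (M := A) (v := w) (w := B.mulVec w)).mp h2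
  simp only [Matrix.mulVec, dotProduct, Fin.sum_univ_two] at e1 e2
  ext i j
  apply sub_eq_zero.mp
  apply (mul_eq_zero.mp ?_).resolve_left hd
  fin_cases i <;> fin_cases j
  · show (u 0 * w 1 - u 1 * w 0) * (A 0 0 - B 0 0) = 0
    linear_combination w 1 * e1.1 - u 1 * e2.1
  · show (u 0 * w 1 - u 1 * w 0) * (A 0 1 - B 0 1) = 0
    linear_combination (-w 0) * e1.1 + u 0 * e2.1
  · show (u 0 * w 1 - u 1 * w 0) * (A 1 0 - B 1 0) = 0
    linear_combination w 1 * e1.2 - u 1 * e2.2
  · show (u 0 * w 1 - u 1 * w 0) * (A 1 1 - B 1 1) = 0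
    linear_combination (-w 0) * e1.2 + u 0 * e2.2

lemma det_ne_of_mk_ne {v w : Fin 2 → K} (hv : v ≠ 0) (hw : w ≠ 0)
    (h : Projectivization.mk K v hv ≠ Projectivization.mk K w hw) :
    v 0 * w 1 - v 1 * w 0 ≠ 0 := by
  intro hd
  apply h
  rw [Projectivization.mk_eq_mk_iff']
  by_cases hw0 : w 0 = 0
  · have hw1 : w 1 ≠ 0 := by
      intro hw1
      apply hw
      ext i; fin_cases i
      · exact hw0
      · exact hw1
    rw [hw0, mul_zero, sub_zero] at hd
    have hv0 : v 0 = 0 := (mul_eq_zero.mp hd).resolve_right hw1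
    refine ⟨v 1 / w 1, ?_⟩
    ext i; fin_cases i
    · simp [hw0, hv0]
    · simp [div_mul_cancel₀ _ hw1]
  · refine ⟨v 0 / w 0, ?_⟩
    ext i; fin_cases i
    · simp [div_mul_cancel₀ _ hw0]
    · simp only [Pi.smul_apply, smul_eq_mul, Fin.mk_one]
      rw [div_mul_eq_mul_div, div_eq_iff hw0]
      linear_combination hd

/-- the main lemma: a nonscalar element with two eigenlines -/
lemma nor_of_pair (h : SL K) (hh : ¬ Sc h) (u w : Fin 2 → AlgebraicClosure K)
    (hd : u 0 * w 1 - u 1 * w 0 ≠ 0) (α β : AlgebraicClosure K)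
    (h1 : (up (h : M2 K)).mulVec u = α • u) (h2 : (up (h : M2 K)).mulVec w = β • w) :
    dsc (h : M2 K) ≠ 0 ∧ ∀ x : SL K,
      (((∃ c : AlgebraicClosure K, (up (x : M2 K)).mulVec u = c • u) ∧
        ∃ c : AlgebraicClosure K, (up (x : M2 K)).mulVec w = c • w) ∨
       ((∃ c : AlgebraicClosure K, (up (x : M2 K)).mulVec u = c • w) ∧
        ∃ c : AlgebraicClosure K, (up (x : M2 K)).mulVec w = c • u)) → x ∈ Nor (h : M2 K) := by
  have e1 := mulVec_eq.mp h1
  have e2 := mulVec_eq.mp h2
  simp only [Pi.smul_apply, smul_eq_mul] at e1 e2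
  have htr : up (h : M2 K) 0 0 + up (h : M2 K) 1 1 = α + β := by
    apply sub_eq_zero.mp
    apply (mul_eq_zero.mp ?_).resolve_left hd
    linear_combination w 1 * e1.1 - u 1 * e2.1 - w 0 * e1.2 + u 0 * e2.2
  have hdet : up (h : M2 K) 0 0 * up (h : M2 K) 1 1 - up (h : M2 K) 0 1 * up (h : M2 K) 1 0 =
      α * β := by
    apply sub_eq_zero.mp
    apply (mul_eq_zero.mp ?_).resolve_left hd
    have a1 := e1.1
    have a2 := e1.2
    have b1 := e2.1
    have b2 := e2.2
    linear_combination (up (h : M2 K) 1 0 * w 0 + up (h : M2 K) 1 1 * w 1) * a1 + α * u 0 * b2 -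
      (up (h : M2 K) 0 0 * w 0 + up (h : M2 K) 0 1 * w 1) * a2 - α * u 1 * b1
  have hab : α ≠ β := by
    rintro rfl
    apply hh
    have hs : up (h : M2 K) = α • (1 : M2 (AlgebraicClosure K)) := by
      apply eq_of_mulVec hd
      · rw [h1, Matrix.smul_mulVec, Matrix.one_mulVec]
      · rw [h2, Matrix.smul_mulVec, Matrix.one_mulVec]
    rw [Sc_iff]
    have hinj := (algebraMap K (AlgebraicClosure K)).injective
    refine ⟨hinj ?_, hinj ?_, hinj ?_⟩
    · have := congrFun (congrFun hs 0) 1
      rw [up_apply] at this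
      rw [map_zero]
      simpa using this
    · have := congrFun (congrFun hs 1) 0
      rw [up_apply] at this
      rw [map_zero]
      simpa using this
    · have a1 := congrFun (congrFun hs 0) 0
      have a2 := congrFun (congrFun hs 1) 1
      rw [up_apply] at a1 a2
      rw [a1, a2]
      simp
  constructor
  · intro hz
    have : algebraMap K (AlgebraicClosure K) (dsc (h : M2 K)) = 0 := by rw [hz, map_zero]
    rw [dsc, Matrix.det_fin_two] at this
    simp only [map_sub, map_mul, map_add, map_pow, map_ofNat] at this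
    simp only [up_apply] at htr hdet
    have h3 : (α - β) ^ 2 = 0 := by
      rw [htr, hdet] at this
      linear_combination this
    exact hab (sub_eq_zero.mp (pow_eq_zero_iff (two_ne_zero) |>.mp h3))
  · intro x hx
    rcases hx with ⟨⟨c, hc⟩, ⟨d, hd'⟩⟩ | ⟨⟨c, hc⟩, ⟨d, hd'⟩⟩
    · left
      apply up_inj
      rw [up_mul, up_mul]
      apply eq_of_mulVec hd
      · rw [← Matrix.mulVec_mulVec, ← Matrix.mulVec_mulVec, h1, hc, Matrix.mulVec_smul,
          Matrix.mulVec_smul, h1, hc, smul_comm]
      · rw [← Matrix.mulVec_mulVec, ← Matrix.mulVec_mulVec, h2, hd', Matrix.mulVec_smul,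
          Matrix.mulVec_smul, h2, hd', smul_comm]
    · right
      apply up_inj
      have hup : up ((((h : M2 K) 0 0 + (h : M2 K) 1 1) • (1 : M2 K) - (h : M2 K)) * (x : M2 K)) =
          ((α + β) • (1 : M2 (AlgebraicClosure K)) - up (h : M2 K)) * up (x : M2 K) := by
        rw [up_mul]
        congr 1
        rw [← htr]
        ext i j
        fin_cases i <;> fin_cases j <;> simp [up]
      rw [hup, up_mul]
      apply eq_of_mulVec hd
      · rw [← Matrix.mulVec_mulVec, ← Matrix.mulVec_mulVec, h1, hc, Matrix.mulVec_smul,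
          Matrix.mulVec_smul, hc, Matrix.sub_mulVec, Matrix.smul_mulVec, Matrix.one_mulVec, h2]
        ext i
        simp only [Pi.smul_apply, Pi.sub_apply, smul_eq_mul]
        ring
      · rw [← Matrix.mulVec_mulVec, ← Matrix.mulVec_mulVec, h2, hd', Matrix.mulVec_smul,
          Matrix.mulVec_smul, hd', Matrix.sub_mulVec, Matrix.smul_mulVec, Matrix.one_mulVec, h1]
        ext i
        simp only [Pi.smul_apply, Pi.sub_apply, smul_eq_mul]
        ring

/-- elements of the closure fixed by Frobenius -/
lemma mem_range_of_pow [Finite K] (x : AlgebraicClosure K) (hx : x ^ Nat.card K = x) :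
    ∃ a : K, algebraMap K (AlgebraicClosure K) a = x := by
  classical
  have := Fintype.ofFinite K
  rw [Nat.card_eq_fintype_card] at hx
  have hs : Splits (X ^ Fintype.card K - X : K[X]) := by
    rw [splits_iff_card_roots, FiniteField.roots_X_pow_card_sub_X, ← Finset.card_def,
      Finset.card_univ, FiniteField.X_pow_card_sub_X_natDegree_eq _ Fintype.one_lt_card]
  have hr := hs.roots_map (algebraMap K (AlgebraicClosure K))
  rw [FiniteField.roots_X_pow_card_sub_X] at hr
  have hm : x ∈ (map (algebraMap K (AlgebraicClosure K)) (X ^ Fintype.card K - X)).roots := by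
    rw [Polynomial.map_sub, Polynomial.map_pow, map_X,
      mem_roots (FiniteField.X_pow_card_sub_X_ne_zero _ Fintype.one_lt_card)]
    simp [IsRoot, hx]
  rw [hr, Multiset.mem_map] at hm
  obtain ⟨a, _, ha⟩ := hm
  exact ⟨a, ha⟩

lemma le_bor_of_scalar {H : Subgroup (SL K)} (h : ∀ x ∈ H, Sc x) :
    ∃ (v : Fin 2 → K) (hv : v ≠ 0), H ≤ Bor v hv := by
  refine ⟨![1, 0], by intro h0; simpa using congrFun h0 0, ?_⟩
  intro x hx
  rcases h x hx with rfl | rfl
  · exact Subgroup.one_mem _
  · exact neg_one_mem_Bor _ _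

lemma exists_coord (P : PF K) : (∃ z : AlgebraicClosure K, P = Projectivization.mk _ ![z, 1]
      (by intro h0; simpa using congrFun h0 1)) ∨
    P = Projectivization.mk _ ![1, 0] (by intro h0; simpa using congrFun h0 0) := by
  induction P using Projectivization.ind with
  | h v hv =>
    by_cases h1 : v 1 = 0
    · right
      rw [Projectivization.mk_eq_mk_iff']
      refine ⟨v 0, ?_⟩
      ext i; fin_cases i
      · simp
      · simp [h1]
    · left
      refine ⟨v 0 / v 1, ?_⟩
      rw [Projectivization.mk_eq_mk_iff']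
      refine ⟨v 1, ?_⟩
      ext i; fin_cases i
      · simp only [Pi.smul_apply, smul_eq_mul, Fin.zero_eta, Matrix.cons_val_zero]
        rw [mul_div_cancel₀ _ h1]
      · simp

end

theorem stmt_D5 : Stmt_D5 := by
  classical
  intro K _ _ H hneg
  have hinj := (algebraMap K (AlgebraicClosure K)).injective
  constructor
  · rintro ⟨P, hP⟩
    by_cases hsc : ∀ x ∈ H, Sc x
    · exact Or.inl (le_bor_of_scalar hsc)
    push Not at hsc
    obtain ⟨h, hhH, hh⟩ := hsc
    rcases exists_coord P with ⟨z, rfl⟩ | rfl
    · by_cases hz : z ^ Nat.card K = z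
      · obtain ⟨a, rfl⟩ := mem_range_of_pow z hz
        left
        refine ⟨![a, 1], by intro h0; simpa using congrFun h0 1, ?_⟩
        intro x hx
        obtain ⟨c, hc⟩ := (smul_mk_iff x _ _ _ _).mp (hP x hx)
        have e := mulVec_eq.mp hc
        simp only [up_apply, Pi.smul_apply, smul_eq_mul, Matrix.cons_val_zero, Matrix.cons_val_one,
          mul_one] at e
        refine ⟨(x : M2 K) 1 0 * a + (x : M2 K) 1 1, ?_⟩
        rw [mulVec_eq]
        simp only [Pi.smul_apply, smul_eq_mul, Matrix.cons_val_zero, Matrix.cons_val_one, mul_one]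
        refine ⟨hinj ?_, trivial⟩
        simp only [map_add, map_mul]
        rw [e.1, e.2]
      · right
        have := Fintype.ofFinite K
        rw [Nat.card_eq_fintype_card] at hz
        set σ : AlgebraicClosure K →ₐ[K] AlgebraicClosure K :=
          FiniteField.frobeniusAlgHom K (AlgebraicClosure K) with hσ
        have hσz : σ z ≠ z := hz
        have hfix : ∀ x ∈ H, (∃ c : AlgebraicClosure K, (up (x : M2 K)).mulVec ![z, 1] = c • ![z, 1]) ∧
            ∃ c : AlgebraicClosure K, (up (x : M2 K)).mulVec ![σ z, 1] = c • ![σ z, 1] := by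
          intro x hx
          obtain ⟨c, hc⟩ := (smul_mk_iff x _ _ _ _).mp (hP x hx)
          refine ⟨⟨c, hc⟩, σ c, ?_⟩
          have e := mulVec_eq.mp hc
          simp only [up_apply, Pi.smul_apply, smul_eq_mul, Matrix.cons_val_zero,
            Matrix.cons_val_one, mul_one] at e
          rw [mulVec_eq]
          simp only [up_apply, Pi.smul_apply, smul_eq_mul, Matrix.cons_val_zero,
            Matrix.cons_val_one, mul_one]
          constructor
          · have := congrArg σ e.1
            simpa only [map_add, map_mul, AlgHom.commutes] using this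
          · have := congrArg σ e.2
            simpa only [map_add, map_mul, AlgHom.commutes] using this
        obtain ⟨⟨α, hα⟩, ⟨β, hβ⟩⟩ := hfix h hhH
        have hd : (![z, 1] : Fin 2 → AlgebraicClosure K) 0 * (![σ z, 1] : Fin 2 → AlgebraicClosure K) 1 -
            (![z, 1] : Fin 2 → AlgebraicClosure K) 1 * (![σ z, 1] : Fin 2 → AlgebraicClosure K) 0 ≠ 0 := by
          simp only [Matrix.cons_val_zero, Matrix.cons_val_one, mul_one, one_mul]
          intro h0
          exact hσz (sub_eq_zero.mp h0).symm
        obtain ⟨h3, h4⟩ := nor_of_pair h hh _ _ hd α β hα hβ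
        exact ⟨(h : M2 K), h3, fun x hx => h4 x (Or.inl (hfix x hx))⟩
    · left
      refine ⟨![1, 0], by intro h0; simpa using congrFun h0 0, ?_⟩
      intro x hx
      obtain ⟨c, hc⟩ := (smul_mk_iff x _ _ _ _).mp (hP x hx)
      have e := mulVec_eq.mp hc
      simp only [up_apply, Pi.smul_apply, smul_eq_mul, Matrix.cons_val_zero, Matrix.cons_val_one,
        mul_one, mul_zero, add_zero] at e
      refine ⟨(x : M2 K) 0 0, ?_⟩
      rw [mulVec_eq]
      simp only [Pi.smul_apply, smul_eq_mul, Matrix.cons_val_zero, Matrix.cons_val_one, mul_one,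
        mul_zero, add_zero]
      refine ⟨trivial, hinj ?_⟩
      rw [e.2, map_zero]
  · rintro ⟨P, Q, hPQ, hH⟩
    by_cases hex : ∃ h ∈ H, ¬ Sc h ∧ h • P = P ∧ h • Q = Q
    · right; left
      obtain ⟨h, hhH, hh, hP, hQ⟩ := hex
      induction P using Projectivization.ind with
      | h u hu =>
        induction Q using Projectivization.ind with
        | h w hw =>
          obtain ⟨α, hα⟩ := (smul_mk_iff h _ _ _ _).mp hP
          obtain ⟨β, hβ⟩ := (smul_mk_iff h _ _ _ _).mp hQ
          have hd := det_ne_of_mk_ne hu hw hPQ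
          obtain ⟨h3, h4⟩ := nor_of_pair h hh _ _ hd α β hα hβ
          refine ⟨(h : M2 K), h3, fun x hx => h4 x ?_⟩
          rcases hH x hx with ⟨h5, h6⟩ | ⟨h5, h6⟩
          · exact Or.inl ⟨(smul_mk_iff x _ _ _ _).mp h5, (smul_mk_iff x _ _ _ _).mp h6⟩
          · exact Or.inr ⟨(smul_mk_iff x _ _ _ _).mp h5, (smul_mk_iff x _ _ _ _).mp h6⟩
    · right; right
      push Not at hex
      have hsc : ∀ x ∈ H, x • P = P → x • Q = Q → Sc x := by
        intro x hx h1 h2
        by_contra h3
        exact hex x hx h3 h1 h2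
      have hsw : ∀ x ∈ H, ∀ y ∈ H, ¬ Sc x → ¬ Sc y → Sc (x * y) := by
        intro x hx y hy h1 h2
        have hx' : x • P = Q ∧ x • Q = P := by
          rcases hH x hx with h | h
          · exact absurd (hsc x hx h.1 h.2) h1
          · exact h
        have hy' : y • P = Q ∧ y • Q = P := by
          rcases hH y hy with h | h
          · exact absurd (hsc y hy h.1 h.2) h2
          · exact h
        apply hsc (x * y) (H.mul_mem hx hy)
        · rw [mul_smul, hy'.1, hx'.2]
        · rw [mul_smul, hy'.2, hx'.1]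
      constructor
      · by_cases hall : ∀ x ∈ H, Sc x
        · have hsub : (H : Set (SL K)) ⊆ {1, -1} := by
            intro x hx
            rcases hall x hx with rfl | rfl <;> simp
          have h1 := Set.ncard_le_ncard hsub (Set.toFinite _)
          have h2 : Set.ncard ({1, -1} : Set (SL K)) ≤ 2 :=
            (Set.ncard_insert_le _ _).trans (by simp)
          have h5 : Nat.card H = Set.ncard (H : Set (SL K)) := rfl
          omega
        · push Not at hall
          obtain ⟨y, hy, hyn⟩ := hall
          have hsub : (H : Set (SL K)) ⊆ {1, -1} ∪ {y⁻¹, -y⁻¹} := by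
            intro x hx
            by_cases hx1 : Sc x
            · left
              rcases hx1 with rfl | rfl <;> simp
            · right
              rcases hsw x hx y hy hx1 hyn with h | h
              · left; exact eq_inv_of_mul_eq_one_left h
              · right
                have : -x * y = 1 := by rw [neg_mul, h, neg_neg]
                have := eq_inv_of_mul_eq_one_left this
                rw [Set.mem_singleton_iff, ← this, neg_neg]
          have h1 := Set.ncard_le_ncard hsub (Set.toFinite _)
          have h2 : Set.ncard ({1, -1} : Set (SL K)) ≤ 2 :=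
            (Set.ncard_insert_le _ _).trans (by simp)
          have h3 : Set.ncard ({y⁻¹, -y⁻¹} : Set (SL K)) ≤ 2 :=
            (Set.ncard_insert_le _ _).trans (by simp)
          have h4 := Set.ncard_union_le ({1, -1} : Set (SL K)) ({y⁻¹, -y⁻¹} : Set (SL K))
          have h5 : Nat.card H = Set.ncard (H : Set (SL K)) := rfl
          omega
      · intro x hx
        by_cases hx1 : Sc x
        · exact hx1.pow 4
        · have h2 := hsw x hx x hx hx1 hx1
          have : x ^ 4 = (x * x) ^ 2 := by rw [← pow_two, ← pow_mul]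
          rw [this]
          exact h2.pow 2

end Pool.FG.helper4
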