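import Pool.Agent.Work.MP_65e34f.Basic

/-!
# MP_65e34f_al : block TEV
-/

namespace Pool.FG.helper4

open Matrix

section
variable {K : Type} [Field K]

/-- powers of an element of trace `2` -/
lemma pow_of_tr_two {x : SL K} (h : tr x = 2) (n : ℕ) :
    ((x ^ n : SL K) : M2 K) = (n : K) • (x : M2 K) - ((n : K) - 1) • (1 : M2 K) := by
  induction n with
  | zero =>
    rw [pow_zero, Matrix.SpecialLinearGroup.coe_one]
    simp
  | succ n ih =>
    rw [pow_succ, Matrix.SpecialLinearGroup.coe_mul, ih, sub_mul, smul_mul_assoc, mul_self_eq, h,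
      smul_mul_assoc, one_mul]
    ext i j
    fin_cases i <;> fin_cases j <;> simp <;> ring

lemma not_sc_pow_of_tr_two {x : SL K} (h : tr x = 2) (hx : ¬ Sc x) {m : ℕ} (hm : (m : K) ≠ 0) :
    ¬ Sc (x ^ m) := by
  intro hs
  apply hx
  have hp := pow_of_tr_two h m
  rw [Sc_iff] at hs ⊢
  have e01 : (x ^ m : SL K).1 0 1 = (m : K) * x.1 0 1 := by
    have := congrFun (congrFun hp 0) 1
    simpa using this
  have e10 : (x ^ m : SL K).1 1 0 = (m : K) * x.1 1 0 := by
    have := congrFun (congrFun hp 1) 0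
    simpa using this
  have e00 : (x ^ m : SL K).1 0 0 = (m : K) * x.1 0 0 - ((m : K) - 1) := by
    have := congrFun (congrFun hp 0) 0
    simpa using this
  have e11 : (x ^ m : SL K).1 1 1 = (m : K) * x.1 1 1 - ((m : K) - 1) := by
    have := congrFun (congrFun hp 1) 1
    simpa using this
  rw [e01, e10, e00, e11] at hs
  obtain ⟨h1, h2, h3⟩ := hs
  refine ⟨(mul_eq_zero.mp h1).resolve_left hm, (mul_eq_zero.mp h2).resolve_left hm, ?_⟩
  apply mul_left_cancel₀ hm
  linear_combination h3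

lemma tr_sq_ne_four {x : SL K} (hx : ¬ Sc x) {m : ℕ} (hs : Sc (x ^ m)) (hm : (m : K) ≠ 0) :
    tr x ^ 2 ≠ 4 := by
  intro h4
  have : (tr x - 2) * (tr x + 2) = 0 := by linear_combination h4
  rcases mul_eq_zero.mp this with h | h
  · exact not_sc_pow_of_tr_two (by linear_combination h) hx hm hs
  · have h1 : tr (-x) = 2 := by rw [tr_neg]; linear_combination -h
    refine not_sc_pow_of_tr_two h1 (fun h2 => hx (Sc_neg_iff.mp h2)) hm ?_
    rcases Nat.even_or_odd m with he | ho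
    · rw [he.neg_pow]; exact hs
    · rw [ho.neg_pow]; exact hs.neg

lemma cast_ne_zero_of_coprime {m N : ℕ} (h : Nat.Coprime (ringChar K) N) (hd : m ∣ N)
    [Finite K] : (m : K) ≠ 0 := by
  intro h0
  have h1 : ringChar K ∣ m := (ringChar.spec K m).mp h0
  have h2 : ringChar K ∣ 1 := by
    have := Nat.dvd_gcd (dvd_refl (ringChar K)) (h1.trans hd)
    rwa [h] at this
  have h3 : ringChar K = 1 := Nat.dvd_one.mp h2
  have h4 : ((1 : ℕ) : K) = 0 := (ringChar.spec K 1).mpr (by rw [h3])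
  simp at h4

lemma sc_sq_of_tr_zero {x : SL K} (h : tr x = 0) : x ^ 2 = -1 := by
  apply Subtype.ext
  have := mul_self_eq x
  rw [h, zero_smul, zero_sub] at this
  rw [pow_two, Matrix.SpecialLinearGroup.coe_mul, this]
  simp

lemma sc_pow_of_tr_zero {x : SL K} (h : tr x = 0) {m : ℕ} (hm : Even m) : Sc (x ^ m) := by
  obtain ⟨k, rfl⟩ := hm
  rw [← two_mul, pow_mul, sc_sq_of_tr_zero h]
  exact Sc_neg_one.pow k

end

theorem stmt_TEV (hTRC : Stmt_TRC) (hCNJ : Stmt_CNJ) (hTWO : Stmt_TWO) (hTOB : Stmt_TOB) :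
    Stmt_TEV := by
  refine ⟨3, 7, ?_⟩
  intro K _ _ m1 m2 m3 hq hyp he2 he3
  obtain ⟨h1, h2, h3, ⟨x0, hx0, hx0m⟩, -, -, hcop⟩ := hyp
  have hm1 : (m1 : K) ≠ 0 := cast_ne_zero_of_coprime hcop ⟨6 * m2 * m3, by ring⟩
  have hτ := tr_sq_ne_four hx0 hx0m hm1
  set τ : K := tr x0 with hτdef
  obtain ⟨-, -, hT1, -⟩ := hTRC K 1 τ one_ne_zero
  -- elements of trace τ
  have hns : ∀ x : SL K, tr x = τ → ¬ Sc x := by
    intro x hx hs
    apply hτ
    rw [← hx]
    rcases hs.tr_eq with h | h <;> rw [h] <;> norm_num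
  have hpow : ∀ x : SL K, tr x = τ → Sc (x ^ m1) := by
    intro x hx
    exact (hCNJ K).2 x0 x m1 hx0 hx0m hx
  have hfin : ∀ s : Set (SL K), s.Finite := fun s => s.toFinite
  have hprod := le_ncard_prod (hfin {x : SL K | tr x = τ})
    (fun x1 => {x : SL K | tr x = 0 ∧ tr (x1 * x) = 0}) (fun _ _ => hfin _) (Nat.card K - 3) (by
      intro x1 hx1
      have hx1' : tr x1 = τ := hx1
      have h5 := (hTWO K x1 (hns x1 hx1') 0 0).2 (by
        rw [hx1', kap]
        intro h6
        apply hτ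
        linear_combination h6)
      omega)
  -- the tuples
  let f : SL K × SL K → List (SL K) × (Fin (Wd.zero).n → SL K) :=
    fun w => ([w.1, w.2, (w.1 * w.2)⁻¹], fun j => Fin.elim0 (show Fin 0 from j))
  have hmaps : ∀ w ∈ {w : SL K × SL K | w.1 ∈ {x : SL K | tr x = τ} ∧
      w.2 ∈ {x : SL K | tr x = 0 ∧ tr (w.1 * x) = 0}}, f w ∈ Bad .zero [m1, m2, m3] K := by
    rintro ⟨x1, x2⟩ ⟨ha, hb, hc⟩
    simp only [Set.mem_ofPred_eq] at ha hb hc
    have hTup : f (x1, x2) ∈ Tup .zero [m1, m2, m3] (⊤ : Subgroup (SL K)) := by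
      refine ⟨?_, fun j => Subgroup.mem_top _, ?_⟩
      · show [x1, x2, (x1 * x2)⁻¹] ∈ Xs [m1, m2, m3] (⊤ : Subgroup (SL K))
        refine cons_mem_Xs.mpr ⟨trivial, hpow x1 ha, ?_⟩
        refine cons_mem_Xs.mpr ⟨trivial, sc_pow_of_tr_zero hb he2, ?_⟩
        refine cons_mem_Xs.mpr ⟨trivial, sc_pow_of_tr_zero (by rw [tr_inv]; exact hc) he3, ?_⟩
        simp
      · show Sc ([x1, x2, (x1 * x2)⁻¹]).prod
        left
        simp only [List.prod_cons, List.prod_nil, mul_one]
        group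
    refine ⟨hTup, ?_⟩
    intro htop
    have hdsc : dsc (x1 : M2 K) ≠ 0 := by
      intro h0
      apply hτ
      have hd := x1.2
      rw [dsc, hd] at h0
      have : tr x1 ^ 2 - 4 = 0 := by
        rw [tr]
        linear_combination h0
      rw [← ha]
      linear_combination this
    have hx1N : x1 ∈ Nor (x1 : M2 K) := Or.inl rfl
    have hx2N : x2 ∈ Nor (x1 : M2 K) := by
      right
      have e1 : x2 * x1 = x1⁻¹ * x2 := by
        have s1 := sc_sq_of_tr_zero hb
        have s2 := sc_sq_of_tr_zero hc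
        have s3 : x1 * x2 * (x1 * x2) = x2 * x2 := by rw [← pow_two, ← pow_two, s1, s2]
        have s4 : x1 * x2 * x1 = x2 := by
          have : x1 * x2 * x1 * x2 = x2 * x2 := by rw [← s3]; simp only [mul_assoc]
          exact mul_right_cancel this
        calc x2 * x1 = x1⁻¹ * (x1 * x2 * x1) := by group
          _ = x1⁻¹ * x2 := by rw [s4]
      have e2 := congrArg (fun z : SL K => (z : M2 K)) e1
      simp only [Matrix.SpecialLinearGroup.coe_mul] at e2
      rw [e2, inv_eq]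
      rfl
    have hle : gn (f (x1, x2)) ≤ Nor (x1 : M2 K) := by
      rw [gn_le_iff]
      refine ⟨?_, fun j => Fin.elim0 (show Fin 0 from j), neg_one_mem_Nor _⟩
      intro x hx
      have hx' : x ∈ [x1, x2, (x1 * x2)⁻¹] := hx
      simp only [List.mem_cons, List.not_mem_nil, or_false] at hx'
      rcases hx' with rfl | rfl | rfl
      · exact hx1N
      · exact hx2N
      · exact Subgroup.inv_mem _ (Subgroup.mul_mem _ hx1N hx2N)
    rw [htop, top_le_iff] at hle
    have hcard := (hTOB K (x1 : M2 K) hdsc).2.1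
    rw [hle, Subgroup.card_top] at hcard
    have h7 : Set.ncard {x : SL K | tr x = τ} ≤ Nat.card (SL K) := by
      rw [← Set.ncard_univ]
      exact Set.ncard_le_ncard (Set.subset_univ _) (Set.toFinite _)
    nlinarith
  have hinj : Set.InjOn f {w : SL K × SL K | w.1 ∈ {x : SL K | tr x = τ} ∧
      w.2 ∈ {x : SL K | tr x = 0 ∧ tr (w.1 * x) = 0}} := by
    rintro ⟨a, b⟩ _ ⟨c, d⟩ _ h
    have h' : [a, b, (a * b)⁻¹] = [c, d, (c * d)⁻¹] := congrArg Prod.fst h
    simp only [List.cons.injEq] at h'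
    rw [h'.1, h'.2.1]
  have hle := Set.ncard_le_ncard_of_injOn f hmaps hinj (Bad_finite _ _)
  have htot := hprod.trans hle
  show Nat.card K ^ 3 ≤ 3 * _
  generalize (Bad .zero [m1, m2, m3] K).ncard = B at htot ⊢
  generalize Set.ncard {x : SL K | tr x = τ} = A at htot hT1
  obtain ⟨r, hr⟩ : ∃ r, Nat.card K = r + 7 := ⟨Nat.card K - 7, by omega⟩
  rw [hr] at htot hT1 ⊢
  have e : r + 7 - 3 = r + 4 := by omega
  rw [e] at htot
  nlinarith

end Pool.FG.helper4
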