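import Pool.Agent.Work.MP_65e34f.Basic

/-!
# MP_65e34f_al : consequences of the perfectness of `SL_2(q)`, `q ≥ 4`
-/

namespace Pool.FG.helper4

open Matrix

/-- commutation of generators modulo a normal subgroup -/
lemma commutator_le_of_gens {G : Type} [Group G] (N : Subgroup G) [N.Normal] (S : Set G)
    (hS : Subgroup.closure S = ⊤) (h : ∀ s ∈ S, ∀ t ∈ S, s * t * s⁻¹ * t⁻¹ ∈ N) :
    commutator G ≤ N := by
  have hq : ∀ x y : G, x * y * x⁻¹ * y⁻¹ ∈ N ↔
      QuotientGroup.mk' N x * QuotientGroup.mk' N y = QuotientGroup.mk' N y * QuotientGroup.mk' N x := by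
    intro x y
    rw [← map_mul, ← map_mul, ← mul_inv_eq_one, ← map_inv, ← map_mul]
    rw [QuotientGroup.mk'_apply, QuotientGroup.eq_one_iff, _root_.mul_inv_rev, ← mul_assoc]
  have h1 : ∀ s ∈ S, ∀ x : G, QuotientGroup.mk' N x * QuotientGroup.mk' N s =
      QuotientGroup.mk' N s * QuotientGroup.mk' N x := by
    intro s hs x
    have hle : Subgroup.closure S ≤
        (Subgroup.centralizer {QuotientGroup.mk' N s}).comap (QuotientGroup.mk' N) := by
      rw [Subgroup.closure_le]
      intro t ht
      show QuotientGroup.mk' N t ∈ Subgroup.centralizer {QuotientGroup.mk' N s}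
      rw [Subgroup.mem_centralizer_iff]
      intro u hu
      rw [Set.mem_singleton_iff] at hu
      subst hu
      exact (hq s t).mp (h s hs t ht)
    have hx : x ∈ Subgroup.closure S := by rw [hS]; trivial
    have := Subgroup.mem_centralizer_iff.mp (show QuotientGroup.mk' N x ∈
      Subgroup.centralizer {QuotientGroup.mk' N s} from hle hx) _ (Set.mem_singleton _)
    exact this.symm
  have h2 : ∀ x y : G, QuotientGroup.mk' N x * QuotientGroup.mk' N y =
      QuotientGroup.mk' N y * QuotientGroup.mk' N x := by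
    intro x y
    have hle : Subgroup.closure S ≤
        (Subgroup.centralizer {QuotientGroup.mk' N x}).comap (QuotientGroup.mk' N) := by
      rw [Subgroup.closure_le]
      intro t ht
      show QuotientGroup.mk' N t ∈ Subgroup.centralizer {QuotientGroup.mk' N x}
      rw [Subgroup.mem_centralizer_iff]
      intro u hu
      rw [Set.mem_singleton_iff] at hu
      subst hu
      exact h1 t ht x
    have hy : y ∈ Subgroup.closure S := by rw [hS]; trivial
    exact Subgroup.mem_centralizer_iff.mp (show QuotientGroup.mk' N y ∈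
      Subgroup.centralizer {QuotientGroup.mk' N x} from hle hy) _ (Set.mem_singleton _)
  rw [commutator_def, Subgroup.commutator_le]
  intro x _ y _
  rw [commutatorElement_def]
  exact (hq x y).mpr (h2 x y)

section
variable {K : Type} [Field K]

/-- `SL_2(q)` is perfect for `q ≥ 4` -/
lemma perfect (h4 : 4 ≤ Nat.card K) : commutator (SL K) = ⊤ := by
  have : Finite K := (Nat.card_pos_iff.1 (by omega)).2
  obtain ⟨x, hx⟩ : IsCyclic Kˣ := by infer_instance
  apply Matrix.SL2.commutator_eq_top (a := (x : K)) (Units.ne_zero x)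
  intro h
  have h1 := Nat.card_eq_card_units_add_one K
  rw [← orderOf_eq_card_of_forall_mem_zpowers hx] at h1
  have h2 := orderOf_le_of_pow_eq_one zero_lt_two (Units.ext (by simpa using h) : x ^ 2 = 1)
  omega

/-- the subgroup `{±1}` -/
def Z (K : Type) [Field K] : Subgroup (SL K) where
  carrier := {x | Sc x}
  one_mem' := Sc_one
  mul_mem' := fun h1 h2 => h1.mul h2
  inv_mem' := fun h => h.inv

lemma mem_Z {x : SL K} : x ∈ Z K ↔ Sc x := Iff.rfl

instance : (Z K).Normal := ⟨fun _ hn g => (Sc_conj_iff (g := g)).mpr hn⟩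

lemma Z_ne_top : Z K ≠ ⊤ := by
  intro h
  have h1 : Sc (⟨!![1, 1; 0, 1], by simp [Matrix.det_fin_two]⟩ : SL K) := by
    have h2 : (⟨!![1, 1; 0, 1], by simp [Matrix.det_fin_two]⟩ : SL K) ∈ Z K := by rw [h]; trivial
    exact h2
  have h3 := ((Sc_iff _).mp h1).1
  simp at h3

/-- generators commuting up to sign do not generate -/
lemma closure_ne_top_of_comm (h4 : 4 ≤ Nat.card K) (S : Set (SL K))
    (h : ∀ s ∈ S, ∀ t ∈ S, Sc (s * t * s⁻¹ * t⁻¹)) : Subgroup.closure S ≠ ⊤ := by
  intro hS
  have := commutator_le_of_gens (Z K) S hS h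
  rw [perfect h4, top_le_iff] at this
  exact Z_ne_top this

/-- the metabelian case -/
lemma closure_ne_top_of_metab (h4 : 4 ≤ Nat.card K) (S T : Set (SL K))
    (hN : (Subgroup.closure T).Normal)
    (h : ∀ s ∈ S, ∀ t ∈ S, s * t * s⁻¹ * t⁻¹ ∈ Subgroup.closure T)
    (hT : ∀ s ∈ T, ∀ t ∈ T, Sc (s * t * s⁻¹ * t⁻¹)) : Subgroup.closure S ≠ ⊤ := by
  intro hS
  have := commutator_le_of_gens (Subgroup.closure T) S hS h
  rw [perfect h4, top_le_iff] at this
  exact closure_ne_top_of_comm h4 T hT this

/-- commuting generators -/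
lemma closure_ne_top_of_comm' (h4 : 4 ≤ Nat.card K) (S : Set (SL K))
    (h : ∀ s ∈ S, ∀ t ∈ S, s * t = t * s) : Subgroup.closure S ≠ ⊤ := by
  apply closure_ne_top_of_comm h4
  intro s hs t ht
  left
  rw [h s hs t ht]
  group

lemma neg_one_comm (x : SL K) : -1 * x = x * -1 := by simp

end

end Pool.FG.helper4
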